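import Pool.Agent.T63.EP.Few
import Pool.Agent.Results.MP_e94e4b_nt.AlmostEqualEveryScale

set_option autoImplicit false

/-!
# The exceptional `N`: from the theorem on almost equal primes
-/

namespace Pool.Agent.T63.EP

open Finset Filter
open Pool.Agent.Results.MP_e94e4b_nt.AlmostEqualEveryScale (Family pairs PrimePair)

theorem pp_of {N : ℕ} {k : ℤ} (hk : 2 ≤ k) (h : PrimePair N k) : PP N k.toNat := by
  obtain ⟨h1, h2⟩ := h
  have hk' : ((k.toNat : ℕ) : ℤ) = k := Int.toNat_of_nonneg (by omega)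
  have e1 : ((N : ℤ) ^ 2 + k + 1).toNat = N ^ 2 + k.toNat + 1 := by
    rw [← hk']
    have : (N : ℤ) ^ 2 + ((k.toNat : ℕ) : ℤ) + 1 = ((N ^ 2 + k.toNat + 1 : ℕ) : ℤ) := by push_cast; ring
    rw [this, Int.toNat_natCast, Int.toNat_natCast]
  have e2 : (((N : ℤ) + 1) ^ 2 - k).toNat = (N + 1) ^ 2 - k.toNat := by
    rw [← hk']
    have : ((N : ℤ) + 1) ^ 2 - ((k.toNat : ℕ) : ℤ) = (((N + 1) ^ 2 : ℕ) : ℤ) - ((k.toNat : ℕ) : ℤ) := by
      push_cast; ring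
    rw [this, Int.toNat_sub, Int.toNat_natCast]
  rw [e1] at h1
  rw [e2] at h2
  exact ⟨h1, h2⟩

theorem ex : Ex := by
  classical
  obtain ⟨δ, hδ, h⟩ := Pool.Agent.Results.MP_e94e4b_nt.AlmostEqualEveryScale.result.2.1 1
  obtain ⟨X₀, hX₀⟩ := h 1 one_pos
  refine ⟨δ, hδ, max X₀ 1, fun X hX => ?_⟩
  have hX1 : 1 ≤ X := (le_max_right _ _).trans hX
  have hXr : (1 : ℝ) ≤ X := by exact_mod_cast hX1
  have hfam : Family 1 δ X X (Polynomial.X : Polynomial ℤ) := by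
    refine ⟨by rw [Polynomial.natDegree_X], by rw [Polynomial.natDegree_X], ?_, ?_⟩
    · rw [Polynomial.natDegree_X, pow_one]
      calc (X : ℝ) ^ (1 - δ) ≤ (X : ℝ) ^ (1 : ℝ) :=
            Real.rpow_le_rpow_of_exponent_le hXr (by linarith)
        _ = X := Real.rpow_one _
    · intro x hx0 hx1
      rw [Polynomial.eval_X, abs_of_nonneg hx0]
      have h1 : (x : ℝ) ≤ X := by exact_mod_cast hx1.le
      refine h1.trans ?_
      calc (X : ℝ) = (X : ℝ) ^ (1 : ℝ) := (Real.rpow_one _).symm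
        _ ≤ (X : ℝ) ^ (1 + δ) := Real.rpow_le_rpow_of_exponent_le hXr (by linarith)
  have h1 := hX₀ X ((le_max_left _ _).trans hX) X Polynomial.X hfam
  have e : (X : ℝ) ^ (-δ) * X = (X : ℝ) ^ (1 - δ) := by
    rw [show (1 : ℝ) - δ = -δ + 1 by ring, Real.rpow_add (by linarith), Real.rpow_one]
  rw [e] at h1
  refine le_trans ?_ h1
  rw [Nat.cast_le]
  refine card_le_card ?_
  intro N hN
  rw [mem_filter] at hN ⊢
  obtain ⟨hN1, hN2, hN3⟩ := hN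
  refine ⟨hN1, N, mem_range.1 hN1, hN2, by rw [Polynomial.eval_X], ?_⟩
  have h2 : pairs N 2 ⌊(X : ℝ) ^ (2 - δ)⌋ = 0 := by
    unfold pairs
    rw [card_eq_zero, filter_eq_empty_iff]
    intro k hk hp
    rw [mem_Ico] at hk
    apply hN3
    refine ⟨k.toNat, by omega, ?_, pp_of hk.1 hp⟩
    have h3 : ((k.toNat : ℕ) : ℤ) = k := Int.toNat_of_nonneg (by omega)
    have h4 : ((k.toNat : ℕ) : ℝ) = (k : ℝ) := by exact_mod_cast congrArg (Int.cast : ℤ → ℝ) h3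
    rw [h4]
    have h5 : (k : ℝ) ≤ (⌊(X : ℝ) ^ (2 - δ)⌋ : ℝ) := by exact_mod_cast hk.2.le
    exact h5.trans (Int.floor_le _)
  rw [h2]
  push_cast
  positivity

/-- The exceptional `N` are few. -/
theorem few : ∃ γ : ℝ, 0 < γ ∧ γ < 1 ∧ ∃ C : ℝ, 0 ≤ C ∧ ∀ X : ℕ, 1 ≤ X →
    ({t : ℕ | 1 ≤ t ∧ t ≤ X ∧ ¬ Pair γ t}.ncard : ℝ) ≤ C * (X : ℝ) ^ (1 - γ) := few_of ex

theorem fewEps : ∃ γ : ℝ, 0 < γ ∧ γ < 1 ∧ ∀ ε : ℝ, 0 < ε → ∃ C : ℝ, ∀ X : ℕ, 1 ≤ X →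
    ({t : ℕ | 1 ≤ t ∧ t ≤ X ∧ True ∧ ¬ Pair γ t}.ncard : ℝ) ≤ C * (X : ℝ) ^ (1 - γ + ε) := by
  obtain ⟨γ, h0, h1, C, hC, h⟩ := few
  refine ⟨γ, h0, h1, fun ε hε => ⟨C, fun X hX => ?_⟩⟩
  simp only [true_and]
  have hXr : (1 : ℝ) ≤ X := by exact_mod_cast hX
  exact (h X hX).trans (mul_le_mul_of_nonneg_left
    (Real.rpow_le_rpow_of_exponent_le hXr (by linarith)) hC)

end Pool.Agent.T63.EP
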