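import Pool.Agent.T63.EP.Base
import Pool.Agent.N790.CM.C

/-!
# MP_e94e4b_nt: prime pairs with the sum `2 N² + 2 N + 2`, `N` near all multiples of Carmichael's function

The problem asks for `k` with `2 ≤ k ≤ 2 N` such that `N ^ 2 + k + 1` and `(N + 1) ^ 2 - k` are both prime.
Here `k` may be larger, up to `N ^ (2 - γ)`, with a constant `γ > 0`, so that the two primes are almost
equal. Let `G` have steps bounded below by a positive constant and growth at most `v ^ e`, for example
`G v = v`, `κ ≥ 0`, `B ≥ 1` and `B (e (1 - γ) + κ) < 1`. For all `u ≤ M` but `M / (log M) ^ A` and ALL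
multiples `w ≤ M ^ B` of Carmichael's function `λ(u)` (for example Euler's function `φ(u)`), for EVERY
`N` with `|N - G(w)| ≤ w ^ κ` there is such a `k`. The same is true for the common multiples `w` of the
numbers `F p`, `p` the large primes which divide `u` exactly once, if `F` takes each positive value at
boundedly many primes, for example `F p = |P(p)|` for a nonconstant polynomial `P`. Some `w` are multiples
of `λ(u)` for more than `M ^ (1 - δ)` of the `u ≤ M`, so that this does not follow from the number of the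
exceptional `N`.

Proof: the exceptional `N ≤ X` are at most `C X ^ (1 - γ)` (`AlmostEqualEveryScale`), and the starting library
`N790/CM`.
-/

set_option autoImplicit false

namespace Pool.Agent.T63.EP.CarmichaelMultiples

open Pool.Agent.N733.TG (Expanding expanding_pow)
open Pool.Agent.N790.CM (FewTimes Carries OnMultiples OnCarmichael fewTimes_pred fewTimes_poly
  keep_good_nat)

/-- There is an integer `k` with `2 ≤ k ≤ N ^ (2 - γ)` for which `N ^ 2 + k + 1` and `(N + 1) ^ 2 - k` are both
prime. -/
def Pair (γ : ℝ) (N : ℕ) : Prop :=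
  ∃ k : ℕ, 2 ≤ k ∧ (k : ℝ) ≤ (N : ℝ) ^ (2 - γ) ∧ (N ^ 2 + k + 1).Prime ∧ ((N + 1) ^ 2 - k).Prime

/-- **Almost equal primes with the sum `2 N² + 2 N + 2`, `N` near all multiples of Carmichael's function of
almost all integers.** There is `γ`, `0 < γ < 1`, such that for `G` with steps `≥ a > 0` and growth at most
`v ^ e`, `κ ≥ 0`, `B ≥ 1` with `B (e (1 - γ) + κ) < 1`: for all `u ≤ M` but `M / (log M) ^ A` and ALL multiples
`w ≤ M ^ B` of `λ(u)`, and also for all common multiples `w ≤ M ^ B` of the numbers `F p`,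
`p > exp (√(log M))` a prime which divides `u` exactly once, `F` any function which takes each positive value
at boundedly many primes, for EVERY `N ≥ 1` with `|N - G w| ≤ w ^ κ` there is `k` with
`2 ≤ k ≤ N ^ (2 - γ)` such that `N ^ 2 + k + 1` and `(N + 1) ^ 2 - k` are prime (`Pair`). Examples of `F` are
`p - 1` and `|P(p)|`, `P` a nonconstant polynomial, and `α v ^ e` with `α > 0`, `e ≥ 1` is an example of
`G`. -/
theorem result :
    ∃ γ : ℝ, 0 < γ ∧ γ < 1 ∧
      ∀ (G : ℕ → ℝ) (e : ℝ), Expanding G e → ∀ κ B : ℝ, 0 ≤ κ → 1 ≤ B →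
      B * (e * (1 - γ) + κ) < 1 →
      OnMultiples B (fun w => ∀ N : ℕ, 1 ≤ N → |(N : ℝ) - G w| ≤ (w : ℝ) ^ κ → Pair γ N) := by
  obtain ⟨γ, h0, h1, hP⟩ := Pool.Agent.T63.EP.fewEps
  refine ⟨γ, h0, h1, fun G e hG κ B hκ hB h => ?_⟩
  exact (keep_good_nat (fun _ => True) (Pool.Agent.T63.EP.Pair γ) hG (s := 1 - γ) (κ := κ) (B := B)
    (by linarith) hκ hB h hP).mono fun w _ hw N hN hn => hw N hN trivial hn

end Pool.Agent.T63.EP.CarmichaelMultiples
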