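import Mathlib

set_option autoImplicit false

/-!
# Prime pairs `N ^ 2 + k + 1`, `(N + 1) ^ 2 - k`: the exceptional `N`
-/

namespace Pool.Agent.T63.EP

open Finset Filter

/-- `N ^ 2 + k + 1` and `(N + 1) ^ 2 - k` are prime. -/
def PP (N k : ℕ) : Prop := (N ^ 2 + k + 1).Prime ∧ ((N + 1) ^ 2 - k).Prime

/-- There is such a `k` with `2 ≤ k ≤ N ^ (2 - γ)`. -/
def Pair (γ : ℝ) (N : ℕ) : Prop := ∃ k : ℕ, 2 ≤ k ∧ (k : ℝ) ≤ (N : ℝ) ^ (2 - γ) ∧ PP N k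

open Classical in
/-- The dyadic count. -/
def Ex : Prop := ∃ δ : ℝ, 0 < δ ∧ ∃ X₀ : ℕ, ∀ X : ℕ, X₀ ≤ X →
  (((range X).filter (fun N : ℕ => X ≤ 2 * N ∧
    ¬ ∃ k : ℕ, 2 ≤ k ∧ (k : ℝ) ≤ (X : ℝ) ^ (2 - δ) ∧ PP N k)).card : ℝ) ≤ (X : ℝ) ^ (1 - δ)

theorem few_of (h : Ex) : ∃ γ : ℝ, 0 < γ ∧ γ < 1 ∧ ∃ C : ℝ, 0 ≤ C ∧ ∀ X : ℕ, 1 ≤ X →
    ({t : ℕ | 1 ≤ t ∧ t ≤ X ∧ ¬ Pair γ t}.ncard : ℝ) ≤ C * (X : ℝ) ^ (1 - γ) := by
  classical
  obtain ⟨δ, hδ, X₀, hX₀⟩ := h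
  obtain ⟨γ, hγ0, hγ1, hγδ⟩ : ∃ γ : ℝ, 0 < γ ∧ γ ≤ 1 / 2 ∧ 2 * γ ≤ δ :=
    ⟨min (δ / 2) (1 / 2), lt_min (by linarith) (by norm_num), min_le_right _ _, by
      have := min_le_left (δ / 2) (1 / 2)
      linarith⟩
  obtain ⟨N₁, hN₁⟩ : ∃ N₁ : ℕ, ∀ N : ℕ, N₁ ≤ N → (4 : ℝ) ≤ (N : ℝ) ^ γ :=
    eventually_atTop.1 (((tendsto_rpow_atTop hγ0).comp
      tendsto_natCast_atTop_atTop).eventually_ge_atTop 4)
  set M₀ : ℕ := max (max X₀ N₁) 1 with hM₀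
  refine ⟨γ, hγ0, by linarith, M₀ + 2 * (2 / γ + 1), by positivity, fun X hX => ?_⟩
  have hX1 : (1 : ℝ) ≤ X := by exact_mod_cast hX
  set D : ℕ → Finset ℕ := fun j => if X₀ ≤ 2 ^ j then
    (range (2 ^ j)).filter (fun N : ℕ => 2 ^ j ≤ 2 * N ∧
      ¬ ∃ k : ℕ, 2 ≤ k ∧ (k : ℝ) ≤ ((2 ^ j : ℕ) : ℝ) ^ (2 - δ) ∧ PP N k) else ∅ with hD
  set J : ℕ := Nat.log 2 X + 1 with hJ
  have hcov : {t : ℕ | 1 ≤ t ∧ t ≤ X ∧ ¬ Pair γ t} ⊆
      ((range M₀ ∪ (Icc 1 J).biUnion D : Finset ℕ) : Set ℕ) := by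
    rintro t ⟨ht1, htX, htP⟩
    rw [mem_coe, mem_union]
    by_cases htM : t < M₀
    · exact Or.inl (mem_range.2 htM)
    right
    push Not at htM
    have htX₀ : X₀ ≤ t := ((le_max_left _ _).trans (le_max_left _ _)).trans htM
    have htN₁ : N₁ ≤ t := ((le_max_right _ _).trans (le_max_left _ _)).trans htM
    set j : ℕ := Nat.log 2 t + 1 with hj
    have h1 : t < 2 ^ j := Nat.lt_pow_succ_log_self (by norm_num) t
    have h2 : 2 ^ j ≤ 2 * t := by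
      rw [hj, pow_succ]
      have := Nat.pow_log_le_self 2 (show t ≠ 0 by omega)
      omega
    rw [mem_biUnion]
    refine ⟨j, mem_Icc.2 ⟨by omega, ?_⟩, ?_⟩
    · have := Nat.log_mono_right (b := 2) htX
      omega
    · have hXj : X₀ ≤ 2 ^ j := by omega
      rw [hD]
      simp only [hXj, if_true, mem_filter, mem_range]
      refine ⟨h1, h2, ?_⟩
      rintro ⟨k, hk1, hk2, hk3⟩
      apply htP
      refine ⟨k, hk1, hk2.trans ?_, hk3⟩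
      have e1 : ((2 ^ j : ℕ) : ℝ) ≤ 2 * t := by exact_mod_cast h2
      have e0 : (1 : ℝ) ≤ ((2 ^ j : ℕ) : ℝ) := by exact_mod_cast Nat.one_le_two_pow
      have et : (1 : ℝ) ≤ t := by exact_mod_cast ht1
      calc ((2 ^ j : ℕ) : ℝ) ^ (2 - δ) ≤ ((2 ^ j : ℕ) : ℝ) ^ (2 - 2 * γ) :=
            Real.rpow_le_rpow_of_exponent_le e0 (by linarith)
        _ ≤ (2 * (t : ℝ)) ^ (2 - 2 * γ) := Real.rpow_le_rpow (by positivity) e1 (by linarith)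
        _ = 2 ^ (2 - 2 * γ) * (t : ℝ) ^ (2 - 2 * γ) := Real.mul_rpow (by norm_num) (by positivity)
        _ ≤ 4 * (t : ℝ) ^ (2 - 2 * γ) := by
            gcongr
            calc (2 : ℝ) ^ (2 - 2 * γ) ≤ (2 : ℝ) ^ (2 : ℝ) :=
                  Real.rpow_le_rpow_of_exponent_le (by norm_num) (by linarith)
              _ = 4 := by norm_num
        _ ≤ (t : ℝ) ^ γ * (t : ℝ) ^ (2 - 2 * γ) := by
            have := hN₁ t htN₁
            gcongr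
        _ = (t : ℝ) ^ (2 - γ) := by
            rw [← Real.rpow_add (by linarith)]
            congr 1
            ring
  have hDc : ∀ j ∈ Icc 1 J, ((D j).card : ℝ) ≤ 2 * (X : ℝ) ^ (1 - 2 * γ) := by
    intro j hj
    rw [hD]
    by_cases hXj : X₀ ≤ 2 ^ j
    · simp only [hXj, if_true]
      refine (hX₀ (2 ^ j) hXj).trans ?_
      have e0 : (1 : ℝ) ≤ ((2 ^ j : ℕ) : ℝ) := by exact_mod_cast Nat.one_le_two_pow
      have e1 : 2 ^ j ≤ 2 * X := by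
        have h3 : 2 ^ j ≤ 2 ^ J := Nat.pow_le_pow_right (by norm_num) (mem_Icc.1 hj).2
        have h4 : 2 ^ J ≤ 2 * X := by
          rw [hJ, pow_succ]
          have := Nat.pow_log_le_self 2 (show X ≠ 0 by omega)
          omega
        omega
      have e1' : ((2 ^ j : ℕ) : ℝ) ≤ 2 * X := by exact_mod_cast e1
      calc ((2 ^ j : ℕ) : ℝ) ^ (1 - δ) ≤ ((2 ^ j : ℕ) : ℝ) ^ (1 - 2 * γ) :=
            Real.rpow_le_rpow_of_exponent_le e0 (by linarith)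
        _ ≤ (2 * (X : ℝ)) ^ (1 - 2 * γ) := Real.rpow_le_rpow (by positivity) e1' (by linarith)
        _ = 2 ^ (1 - 2 * γ) * (X : ℝ) ^ (1 - 2 * γ) := Real.mul_rpow (by norm_num) (by positivity)
        _ ≤ 2 * (X : ℝ) ^ (1 - 2 * γ) := by
            gcongr
            calc (2 : ℝ) ^ (1 - 2 * γ) ≤ (2 : ℝ) ^ (1 : ℝ) :=
                  Real.rpow_le_rpow_of_exponent_le (by norm_num) (by linarith)
              _ = 2 := Real.rpow_one _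
    · simp only [hXj, if_false, card_empty, Nat.cast_zero]
      positivity
  have hcard : ({t : ℕ | 1 ≤ t ∧ t ≤ X ∧ ¬ Pair γ t}.ncard : ℝ) ≤
      M₀ + J * (2 * (X : ℝ) ^ (1 - 2 * γ)) := by
    have h1 : {t : ℕ | 1 ≤ t ∧ t ≤ X ∧ ¬ Pair γ t}.ncard ≤
        (range M₀ ∪ (Icc 1 J).biUnion D).card := by
      rw [← Set.ncard_coe_finset]
      exact Set.ncard_le_ncard hcov (Finset.finite_toSet _)
    have h2 : (range M₀ ∪ (Icc 1 J).biUnion D).card ≤ M₀ + ∑ j ∈ Icc 1 J, (D j).card := by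
      refine (card_union_le _ _).trans (Nat.add_le_add ?_ card_biUnion_le)
      simp
    have h3 : ((range M₀ ∪ (Icc 1 J).biUnion D).card : ℝ) ≤ M₀ + ∑ j ∈ Icc 1 J, ((D j).card : ℝ) := by
      exact_mod_cast h2
    have h4 : ∑ j ∈ Icc 1 J, ((D j).card : ℝ) ≤ ∑ _j ∈ Icc 1 J, 2 * (X : ℝ) ^ (1 - 2 * γ) :=
      sum_le_sum hDc
    rw [sum_const, Nat.card_Icc, nsmul_eq_mul, Nat.add_sub_cancel] at h4
    have h5 : ({t : ℕ | 1 ≤ t ∧ t ≤ X ∧ ¬ Pair γ t}.ncard : ℝ) ≤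
        ((range M₀ ∪ (Icc 1 J).biUnion D).card : ℝ) := by exact_mod_cast h1
    linarith
  have hJX : (J : ℝ) ≤ (2 / γ + 1) * (X : ℝ) ^ γ := by
    have h1 : (Nat.log 2 X : ℝ) ≤ Real.logb 2 X := by
      have := Real.natLog_le_logb X 2
      simpa using this
    have h2 : Real.logb 2 X ≤ 2 * Real.log X := by
      rw [Real.logb, div_le_iff₀ (Real.log_pos (by norm_num))]
      have := Real.log_two_gt_d9
      have h3 : 0 ≤ Real.log X := Real.log_nonneg hX1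
      nlinarith
    have h3 : Real.log X ≤ (X : ℝ) ^ γ / γ := Real.log_le_rpow_div (by linarith) hγ0
    have h4 : (1 : ℝ) ≤ (X : ℝ) ^ γ := Real.one_le_rpow hX1 hγ0.le
    have h5 : (J : ℝ) = Nat.log 2 X + 1 := by rw [hJ]; push_cast; ring
    rw [h5]
    calc (Nat.log 2 X : ℝ) + 1 ≤ 2 * ((X : ℝ) ^ γ / γ) + (X : ℝ) ^ γ := by linarith
      _ = _ := by ring
  have hone : (1 : ℝ) ≤ (X : ℝ) ^ (1 - γ) := Real.one_le_rpow hX1 (by linarith)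
  refine hcard.trans ?_
  calc (M₀ : ℝ) + J * (2 * (X : ℝ) ^ (1 - 2 * γ))
      ≤ M₀ * (X : ℝ) ^ (1 - γ) + ((2 / γ + 1) * (X : ℝ) ^ γ) * (2 * (X : ℝ) ^ (1 - 2 * γ)) := by
        have h1 : (M₀ : ℝ) ≤ M₀ * (X : ℝ) ^ (1 - γ) := le_mul_of_one_le_right (by positivity) hone
        gcongr
    _ = M₀ * (X : ℝ) ^ (1 - γ) + 2 * (2 / γ + 1) * ((X : ℝ) ^ γ * (X : ℝ) ^ (1 - 2 * γ)) := by ring
    _ = M₀ * (X : ℝ) ^ (1 - γ) + 2 * (2 / γ + 1) * (X : ℝ) ^ (1 - γ) := by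
        rw [← Real.rpow_add (by linarith)]
        congr 3
        ring
    _ = _ := by ring

end Pool.Agent.T63.EP
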